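import Mathlib
import Pool.Agent.Helper873.PBody.GZ

set_option autoImplicit false

open MeasureTheory Metric Set Filter Topology
open scoped Pointwise
open Pool.Agent.Helper873.PBody

namespace Pool.Agent.Results.MP_05927b_gt.Attractor

/-- The class is invariant under invertible linear maps. -/
def ClassInvariant (n : ℕ) : Prop :=
  ∀ K : Set (E n), InClass K → ∀ A : E n ≃ₗ[ℝ] E n, InClass (A '' K)

/-- The class is closed: a convex body that is a Hausdorff limit of members is a member. -/
def ClassClosed (n : ℕ) : Prop :=
  ∀ (K : ℕ → Set (E n)) (L : Set (E n)), (∀ i, InClass (K i)) → IsBody L →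
    Tendsto (fun i => hausdorffDist (K i) L) atTop (𝓝 0) → InClass L

/-- The class is connected modulo linear maps: every functional on convex bodies that is continuous
for the Hausdorff distance and invariant under invertible linear maps takes on the class every value
between any two of its values on the class. -/
def ClassConnected (n : ℕ) : Prop :=
  ∀ Φ : Set (E n) → ℝ, LinInv Φ → HausCont Φ → ∀ K L : Set (E n), InClass K → InClass L →
    ∀ t : ℝ, Φ K ≤ t → t ≤ Φ L → ∃ M : Set (E n), InClass M ∧ Φ M = t

/-- The Banach-Mazur distance to the Euclidean ball takes on the class every value in `[1, √n]`.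
Members at distance `t > 1` are not ellipsoids, members at distance `t < √2` are not direct sums. -/
def ClassDistances (n : ℕ) : Prop :=
  ∀ t : ℝ, 1 ≤ t → t ≤ √n → ∃ K : Set (E n), InClass K ∧ distBall K = t ∧
    (1 < t → ¬ IsEllipsoid K) ∧ (t < √2 → ¬ Decomposable K)

/-- Structure of the class of convex bodies in `ℝⁿ`, `n ≥ 2`, that are iterated projection bodies
of every order. -/
theorem result : ∀ n : ℕ, 2 ≤ n →
    ClassInvariant n ∧ ClassClosed n ∧ ClassConnected n ∧ ClassDistances n := by
  intro N hN
  obtain ⟨n, rfl⟩ : ∃ n, N = n + 1 := ⟨N - 1, by omega⟩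
  have hn : 1 ≤ n := by omega
  refine ⟨fun K hK A => inClass_comp hn hK A, fun K L hK hL h => inClass_closed hn hK hL h, ?_, ?_⟩
  · intro Φ h1 h2 K L hK hL t ht1 ht2
    obtain ⟨p, hp, rfl⟩ := exists_of_inClass hK
    obtain ⟨q, hq, rfl⟩ := exists_of_inClass hL
    obtain ⟨r, hr, hrt⟩ := main_fun hn (inv_of_linInv h1) (cont_of_hausCont h2) hp hq ht1 ht2
    exact ⟨body r, inClass_body hr, hrt⟩
  · intro t ht1 ht2
    have ha : bm (fun u : E (n + 1) => ‖u‖) = 1 := by
      have := bm_norm (n := n + 1) (by omega) one_pos
      simpa using this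
    have hb := bm_l1 (n := n + 1) (by omega)
    obtain ⟨p, hp, hpt⟩ := main_fun hn bm_inv bm_cont (norm_mem hn) (l1_mem hn) (t := t)
      (by rw [ha]; exact ht1) (by rw [hb]; exact ht2)
    have hg : Good p := S_good (hp 0)
    refine ⟨body p, inClass_body hp, by rw [distBall_body hg, hpt], ?_, ?_⟩
    · intro h
      exact not_ellipsoid hg (by rw [hpt]; exact h)
    · rintro h ⟨U, W, hUW, hU, hW, K₁, K₂, h1, h2, h3⟩
      have := bm_decomp hg hUW hU hW h1 h2 h3
      rw [hpt] at this
      exact absurd h (not_lt.2 this)

end Pool.Agent.Results.MP_05927b_gt.Attractor
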